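import Pool.Agent.Helper600R2.Sharp.Cube

set_option autoImplicit false

/-!
# The boundary of a set of low degree

If `g` has only the values `0` and `1` and degree at most `t`, then `{g = 1}` has at most
`2 t |{g = 1}|` boundary edges. Hence a set `A` which is thin on all subcubes with `m` free
coordinates is thin in `{g = 1}`.
-/

namespace Pool.Agent.X79.RF

open Finset Pool.Agent.H564R2.QF Pool.Agent.Helper600R2.Sharp

section boolean

variable {E : Type} [Fintype E] [DecidableEq E]

/-- flip the `i`-th bit -/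
def fl (i : E) (y : E → Bool) : E → Bool := Function.update y i (!(y i))

omit [Fintype E] in
lemma fl_inv (i : E) : Function.Involutive (fl i) := by
  intro y
  funext j
  by_cases hj : j = i
  · subst hj; simp [fl]
  · simp [fl, hj]

lemma sum_fl (i : E) (g : (E → Bool) → ℝ) : ∑ y, g (fl i y) = ∑ y, g y :=
  Fintype.sum_equiv (Function.Involutive.toPerm _ (fl_inv i)) _ _ (fun _ => rfl)

omit [Fintype E] in
lemma chi_fl (i : E) (S : Finset E) (y : E → Bool) :
    chi S (fl i y) = (if i ∈ S then -1 else 1) * chi S y := by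
  rw [chi_eq, chi_eq]
  split_ifs with h
  · rw [← Finset.mul_prod_erase S _ h, ← Finset.mul_prod_erase S (fun v => sg (y v)) h]
    have h1 : sg (fl i y i) = - sg (y i) := by
      simp only [fl, Function.update_self]
      cases y i <;> simp [sg]
    have h2 : ∏ v ∈ S.erase i, sg (fl i y v) = ∏ v ∈ S.erase i, sg (y v) := by
      refine Finset.prod_congr rfl (fun v hv => ?_)
      have : v ≠ i := Finset.ne_of_mem_erase hv
      simp [fl, this]
    rw [h1, h2]
    ring
  · rw [one_mul]
    refine Finset.prod_congr rfl (fun v hv => ?_)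
    have : v ≠ i := fun h' => h (h' ▸ hv)
    simp [fl, this]

lemma coef_fl (i : E) (h : (E → Bool) → ℝ) (S : Finset E) :
    coef (fun y => h (fl i y)) S = (if i ∈ S then -1 else 1) * coef h S := by
  unfold coef
  rw [← mul_div_assoc]
  congr 1
  rw [← sum_fl i (fun y => h (fl i y) * chi S y)]
  rw [Finset.mul_sum]
  refine Finset.sum_congr rfl (fun y _ => ?_)
  rw [fl_inv i y, chi_fl]
  ring

lemma bd_one (h : (E → Bool) → ℝ) (h01 : ∀ y, h y = 0 ∨ h y = 1) (i : E) :
    ∑ y, h y * (1 - h (fl i y)) =
      2 ^ Fintype.card E * ∑ S : Finset E, (if i ∈ S then 2 * coef h S ^ 2 else 0) := by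
  have h1 : ∑ y, h y * (1 - h (fl i y)) = (∑ y, (h y - h (fl i y)) ^ 2) / 2 := by
    have h2 : ∀ y, (h y - h (fl i y)) ^ 2 =
        h y * (1 - h (fl i y)) + h (fl i y) * (1 - h (fl i (fl i y))) := by
      intro y
      rw [fl_inv i y]
      rcases h01 y with a | a <;> rcases h01 (fl i y) with b | b <;> rw [a, b] <;> ring
    simp only [h2]
    rw [Finset.sum_add_distrib, sum_fl i (fun y => h y * (1 - h (fl i y)))]
    ring
  have h3 := parseval (fun y => h y - h (fl i y))
  have h4 : ∀ S : Finset E, coef (fun y => h y - h (fl i y)) S ^ 2 =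
      2 * (if i ∈ S then 2 * coef h S ^ 2 else 0) := by
    intro S
    have h5 : coef (fun y => h y - h (fl i y)) S = coef h S - coef (fun y => h (fl i y)) S :=
      coef_sub h (fun y => h (fl i y)) S
    rw [h5, coef_fl]
    split_ifs <;> ring
  simp only [h4] at h3
  rw [← Finset.mul_sum, eq_div_iff two_pow_pos'.ne'] at h3
  rw [h1, ← h3]
  ring

/-- A set of degree at most `t` has at most `2 t` times as many boundary edges as elements. -/
theorem bd_bool (h : (E → Bool) → ℝ) (h01 : ∀ y, h y = 0 ∨ h y = 1) {t : ℕ}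
    (hd : h ∈ LowDeg E t) :
    ∑ i, ∑ y, h y * (1 - h (fl i y)) ≤ 2 * t * ∑ y, h y := by
  simp only [bd_one h h01]
  rw [← Finset.mul_sum, Finset.sum_comm]
  have h1 : ∀ S : Finset E, ∑ i : E, (if i ∈ S then 2 * coef h S ^ 2 else 0) ≤
      2 * t * coef h S ^ 2 := by
    intro S
    rw [← Finset.sum_filter, Finset.filter_mem_eq_inter, Finset.univ_inter, Finset.sum_const,
      nsmul_eq_mul]
    by_cases hS : S.card ≤ t
    · have : (S.card : ℝ) ≤ t := by exact_mod_cast hS
      nlinarith [sq_nonneg (coef h S)]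
    · rw [lowDeg_coef hd S (by omega)]
      simp
  have h2 := parseval h
  have h3 : ∑ y, h y ^ 2 = ∑ y, h y := by
    refine Finset.sum_congr rfl (fun y _ => ?_)
    rcases h01 y with a | a <;> rw [a] <;> norm_num
  rw [h3, eq_div_iff two_pow_pos'.ne'] at h2
  calc 2 ^ Fintype.card E * ∑ S : Finset E, ∑ i : E, (if i ∈ S then 2 * coef h S ^ 2 else 0)
      ≤ 2 ^ Fintype.card E * ∑ S : Finset E, 2 * t * coef h S ^ 2 :=
        mul_le_mul_of_nonneg_left (Finset.sum_le_sum (fun S _ => h1 S)) (by positivity)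
    _ = 2 * t * ((∑ S : Finset E, coef h S ^ 2) * 2 ^ Fintype.card E) := by
        rw [← Finset.mul_sum]; ring
    _ = 2 * t * ∑ y, h y := by rw [h2]

end boolean

section letters

variable {E L : Type} [Fintype E] [DecidableEq E] [Fintype L] [DecidableEq L]

/-- the word with the letters of `v` where `y` is true and the letters of `u` elsewhere -/
def mx (y : E → Bool) (u v : E → L) : E → L := fun e => if y e = true then v e else u e

/-- all restrictions of `g` to two letters at each coordinate have degree at most `t` -/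
def DegLe (g : (E → L) → ℝ) (t : ℕ) : Prop :=
  ∀ u v : E → L, (fun y : E → Bool => g (mx y u v)) ∈ LowDeg E t

omit [Fintype E] [DecidableEq E] [Fintype L] [DecidableEq L] in
lemma mx_inv (y : E → Bool) : Function.Involutive
    (fun p : (E → L) × (E → L) => (mx y p.1 p.2, mx y p.2 p.1)) := by
  rintro ⟨u, v⟩
  refine Prod.ext ?_ ?_ <;> funext e <;> by_cases h : y e = true <;> simp [mx, h]

omit [Fintype E] [Fintype L] [DecidableEq L] in
lemma mx_fl (y : E → Bool) (u v : E → L) (i : E) :
    mx (fl i y) u v = Function.update (mx y u v) i (mx y v u i) := by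
  funext e
  by_cases he : e = i
  · subst he
    cases h : y e <;> simp [mx, fl, h]
  · simp [mx, fl, he]

omit [DecidableEq L] in
lemma sum_mx (y : E → Bool) (H : (E → L) → (E → L) → ℝ) :
    ∑ u, ∑ v, H (mx y u v) (mx y v u) = ∑ x, ∑ x', H x x' := by
  rw [← Fintype.sum_prod_type' (f := fun u v => H (mx y u v) (mx y v u)),
    ← Fintype.sum_prod_type' (f := fun x x' => H x x')]
  exact Fintype.sum_equiv (Function.Involutive.toPerm _ (mx_inv y)) _ _ (fun _ => rfl)

omit [DecidableEq L] in
/-- the average over one letter -/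
lemma sum_letter (i : E) (F : L → ℝ) :
    (Fintype.card L : ℝ) * ∑ x : E → L, F (x i) =
      (Fintype.card L : ℝ) ^ Fintype.card E * ∑ a, F a := by
  have hinv : Function.Involutive
      (fun p : L × (E → L) => (p.2 i, Function.update p.2 i p.1)) := by
    rintro ⟨a, x⟩
    refine Prod.ext ?_ ?_
    · simp
    · simp
  have h1 : ∑ p : L × (E → L), F (p.2 i) = ∑ p : L × (E → L), F p.1 :=
    Fintype.sum_equiv (Function.Involutive.toPerm _ hinv) _ _ (fun _ => rfl)
  rw [Fintype.sum_prod_type, Fintype.sum_prod_type] at h1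
  simp only [Finset.sum_const, Finset.card_univ, nsmul_eq_mul, Fintype.card_fun] at h1
  rw [h1, ← Finset.mul_sum]
  push_cast
  rfl

omit [DecidableEq L] in
/-- the boundary of a set of low degree, over any alphabet -/
theorem bd_letters (g : (E → L) → ℝ) (g01 : ∀ x, g x = 0 ∨ g x = 1) {t : ℕ} (hd : DegLe g t) :
    ∑ i, ∑ x, ∑ a, g x * (1 - g (Function.update x i a)) ≤
      2 * t * Fintype.card L * ∑ x, g x := by
  rcases isEmpty_or_nonempty L with hL | hL
  · have h0 : (Fintype.card L : ℝ) = 0 := by simp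
    have : ∀ (i : E) (x : E → L), ∑ a, g x * (1 - g (Function.update x i a)) = 0 := by
      intro i x
      rw [Finset.univ_eq_empty, Finset.sum_empty]
    simp only [this]
    simp
  have hq : (0 : ℝ) < Fintype.card L := by exact_mod_cast Fintype.card_pos
  have h1 : ∀ u v : E → L, ∑ i, ∑ y, g (mx y u v) * (1 - g (mx (fl i y) u v)) ≤
      2 * t * ∑ y, g (mx y u v) := fun u v => bd_bool _ (fun y => g01 _) (hd u v)
  have h2 := Finset.sum_le_sum (fun (u : E → L) (_ : u ∈ univ) =>
    Finset.sum_le_sum (fun (v : E → L) (_ : v ∈ univ) => h1 u v))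
  have h3 : ∑ u : E → L, ∑ v : E → L, ∑ i, ∑ y, g (mx y u v) * (1 - g (mx (fl i y) u v)) =
      2 ^ Fintype.card E * ∑ i, ∑ x, g x * ∑ x' : E → L, (1 - g (Function.update x i (x' i))) := by
    have e1 : ∀ (i : E) (y : E → Bool),
        ∑ u : E → L, ∑ v : E → L, g (mx y u v) * (1 - g (mx (fl i y) u v)) =
          ∑ x, g x * ∑ x' : E → L, (1 - g (Function.update x i (x' i))) := by
      intro i y
      simp only [mx_fl]
      rw [sum_mx y (fun x x' => g x * (1 - g (Function.update x i (x' i))))]
      refine Finset.sum_congr rfl (fun x _ => ?_)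
      rw [Finset.mul_sum]
    have e2 : ∑ u : E → L, ∑ v : E → L, ∑ i, ∑ y, g (mx y u v) * (1 - g (mx (fl i y) u v)) =
        ∑ i, ∑ y, ∑ u : E → L, ∑ v : E → L, g (mx y u v) * (1 - g (mx (fl i y) u v)) := by
      have e3 : ∀ u : E → L, ∑ v : E → L, ∑ i, ∑ y, g (mx y u v) * (1 - g (mx (fl i y) u v)) =
          ∑ i, ∑ y, ∑ v : E → L, g (mx y u v) * (1 - g (mx (fl i y) u v)) := by
        intro u
        rw [Finset.sum_comm]
        refine Finset.sum_congr rfl (fun i _ => ?_)
        rw [Finset.sum_comm]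
      simp only [e3]
      rw [Finset.sum_comm]
      refine Finset.sum_congr rfl (fun i _ => ?_)
      rw [Finset.sum_comm]
    rw [e2]
    simp only [e1]
    rw [Finset.mul_sum]
    refine Finset.sum_congr rfl (fun i _ => ?_)
    rw [Finset.sum_const, Finset.card_univ, Fintype.card_fun, Fintype.card_bool, nsmul_eq_mul]
    push_cast
    rfl
  have h4 : ∑ u : E → L, ∑ v : E → L, 2 * (t : ℝ) * ∑ y, g (mx y u v) =
      2 ^ Fintype.card E * (2 * t * ((Fintype.card L : ℝ) ^ Fintype.card E * ∑ x, g x)) := by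
    have e1 : ∀ y : E → Bool, ∑ u : E → L, ∑ v : E → L, g (mx y u v) =
        (Fintype.card L : ℝ) ^ Fintype.card E * ∑ x, g x := by
      intro y
      rw [sum_mx y (fun x _ => g x)]
      simp only [Finset.sum_const, Finset.card_univ, nsmul_eq_mul, Fintype.card_fun]
      rw [← Finset.mul_sum]
      push_cast
      rfl
    have e2 : ∑ u : E → L, ∑ v : E → L, 2 * (t : ℝ) * ∑ y, g (mx y u v) =
        2 * t * ∑ y, ∑ u : E → L, ∑ v : E → L, g (mx y u v) := by
      have e3 : ∀ u : E → L, ∑ v : E → L, 2 * (t : ℝ) * ∑ y, g (mx y u v) =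
          2 * t * ∑ y, ∑ v : E → L, g (mx y u v) := by
        intro u
        rw [← Finset.mul_sum, Finset.sum_comm]
      simp only [e3]
      rw [← Finset.mul_sum, Finset.sum_comm]
    rw [e2]
    simp only [e1]
    rw [Finset.sum_const, Finset.card_univ, Fintype.card_fun, Fintype.card_bool, nsmul_eq_mul]
    push_cast
    ring
  rw [h3, h4] at h2
  have h5 := le_of_mul_le_mul_left h2 (by positivity)
  have h6 : ∀ (i : E) (x : E → L), (Fintype.card L : ℝ) *
      (g x * ∑ x' : E → L, (1 - g (Function.update x i (x' i)))) =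
      (Fintype.card L : ℝ) ^ Fintype.card E * ∑ a, g x * (1 - g (Function.update x i a)) := by
    intro i x
    have e1 := sum_letter (E := E) i (fun a => 1 - g (Function.update x i a))
    rw [← Finset.mul_sum]
    linear_combination g x * e1
  have h7 := mul_le_mul_of_nonneg_left h5 hq.le
  have h8 : (Fintype.card L : ℝ) *
      ∑ i, ∑ x, g x * ∑ x' : E → L, (1 - g (Function.update x i (x' i))) =
      (Fintype.card L : ℝ) ^ Fintype.card E *
        ∑ i, ∑ x, ∑ a, g x * (1 - g (Function.update x i a)) := by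
    rw [Finset.mul_sum, Finset.mul_sum]
    refine Finset.sum_congr rfl (fun i _ => ?_)
    rw [Finset.mul_sum, Finset.mul_sum]
    exact Finset.sum_congr rfl (fun x _ => h6 i x)
  rw [h8] at h7
  have hpos : (0 : ℝ) < (Fintype.card L : ℝ) ^ Fintype.card E := by positivity
  refine le_of_mul_le_mul_left (h7.trans (le_of_eq ?_)) hpos
  ring

end letters

end Pool.Agent.X79.RF
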