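import Pool.Agent.X79.RF.Bd

set_option autoImplicit false

/-!
# Thin sets inside sets with a small boundary
-/

namespace Pool.Agent.X79.RF

open Finset Pool.Agent.H564R2.QF Pool.Agent.Helper600R2.Sharp Function

variable {L : Type} [Fintype L]

section one

variable {κ : Type} [Fintype κ] [DecidableEq κ]

omit [Fintype L] in
/-- without boundary a nonempty set is everything -/
lemma spread (G : (κ → L) → ℝ) (b0 : κ → L) (h0 : G b0 = 1)
    (h : ∀ (i : κ) (b : κ → L) (a : L), G b = 1 → G (Function.update b i a) = 1) (b : κ → L) :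
    G b = 1 := by
  classical
  have key : ∀ s : Finset κ, G (fun i => if i ∈ s then b i else b0 i) = 1 := by
    intro s
    induction s using Finset.induction_on with
    | empty => simpa using h0
    | insert i s hi ih =>
      have h1 := h i _ (b i) ih
      have h2 : Function.update (fun j => if j ∈ s then b j else b0 j) i (b i) =
          fun j => if j ∈ insert i s then b j else b0 j := by
        funext j
        by_cases hj : j = i
        · subst hj; simp
        · simp [hj]
      rwa [h2] at h1
  have := key univ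
  simpa using this

lemma one_block (G A : (κ → L) → ℝ) (hG : ∀ b, G b = 0 ∨ G b = 1) (hA0 : ∀ b, 0 ≤ A b)
    (hA1 : ∀ b, A b ≤ 1) (R : ℝ) (hR : ∑ b, A b ≤ R) :
    ∑ b, A b * G b ≤ (R / (Fintype.card L : ℝ) ^ Fintype.card κ) * ∑ b, G b +
      (Fintype.card L : ℝ) ^ Fintype.card κ *
        ∑ i, ∑ b, ∑ a, G b * (1 - G (Function.update b i a)) := by
  have hR0 : 0 ≤ R := (Finset.sum_nonneg fun b _ => hA0 b).trans hR
  have hterm : ∀ (i : κ) (b : κ → L) (a : L), 0 ≤ G b * (1 - G (Function.update b i a)) := by
    intro i b a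
    rcases hG b with h | h <;> rcases hG (Function.update b i a) with h' | h' <;> rw [h, h'] <;>
      norm_num
  have hbd0 : 0 ≤ ∑ i, ∑ b, ∑ a, G b * (1 - G (Function.update b i a)) :=
    Finset.sum_nonneg fun i _ => Finset.sum_nonneg fun b _ => Finset.sum_nonneg fun a _ =>
      hterm i b a
  have hG0 : ∀ b, 0 ≤ G b := fun b => by rcases hG b with h | h <;> rw [h] <;> norm_num
  have hGs : 0 ≤ ∑ b, G b := Finset.sum_nonneg fun b _ => hG0 b
  have hcard : ∑ _b : κ → L, (1 : ℝ) = (Fintype.card L : ℝ) ^ Fintype.card κ := by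
    simp
  by_cases h1 : ∃ b0, G b0 = 1
  · obtain ⟨b0, hb0⟩ := h1
    by_cases h2 : ∀ (i : κ) (b : κ → L) (a : L), G b = 1 → G (Function.update b i a) = 1
    · have h3 := spread G b0 hb0 h2
      have h4 : ∑ b, A b * G b ≤ R := by
        refine le_trans (le_of_eq ?_) hR
        exact Finset.sum_congr rfl fun b _ => by rw [h3 b, mul_one]
      have h5 : ∑ b, G b = (Fintype.card L : ℝ) ^ Fintype.card κ := by
        rw [← hcard]
        exact Finset.sum_congr rfl fun b _ => h3 b
      have hpos : (0 : ℝ) < (Fintype.card L : ℝ) ^ Fintype.card κ := by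
        rw [← h5]
        exact lt_of_lt_of_le (by rw [hb0]; norm_num)
          (Finset.single_le_sum (fun b _ => hG0 b) (Finset.mem_univ b0))
      rw [h5, div_mul_cancel₀ _ hpos.ne']
      have : 0 ≤ (Fintype.card L : ℝ) ^ Fintype.card κ *
        ∑ i, ∑ b, ∑ a, G b * (1 - G (Function.update b i a)) := by positivity
      linarith
    · push Not at h2
      obtain ⟨i, b, a, h3, h4⟩ := h2
      have h5 : G (Function.update b i a) = 0 := by
        rcases hG (Function.update b i a) with h | h
        · exact h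
        · exact absurd h h4
      have h6 : 1 ≤ ∑ i, ∑ b, ∑ a, G b * (1 - G (Function.update b i a)) := by
        have e1 : (1 : ℝ) = G b * (1 - G (Function.update b i a)) := by rw [h3, h5]; norm_num
        calc (1 : ℝ) = G b * (1 - G (Function.update b i a)) := e1
          _ ≤ ∑ a, G b * (1 - G (Function.update b i a)) :=
              Finset.single_le_sum (f := fun a => G b * (1 - G (Function.update b i a)))
                (fun a _ => hterm i b a) (Finset.mem_univ a)
          _ ≤ ∑ b, ∑ a, G b * (1 - G (Function.update b i a)) :=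
              Finset.single_le_sum (f := fun b => ∑ a, G b * (1 - G (Function.update b i a)))
                (fun b _ => Finset.sum_nonneg fun a _ => hterm i b a) (Finset.mem_univ b)
          _ ≤ _ := Finset.single_le_sum
                (f := fun i => ∑ b, ∑ a, G b * (1 - G (Function.update b i a)))
                (fun i _ => Finset.sum_nonneg fun b _ => Finset.sum_nonneg fun a _ => hterm i b a)
                (Finset.mem_univ i)
      have h7 : ∑ b, A b * G b ≤ (Fintype.card L : ℝ) ^ Fintype.card κ := by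
        rw [← hcard]
        refine Finset.sum_le_sum fun b _ => ?_
        rcases hG b with h | h <;> rw [h]
        · norm_num
        · rw [mul_one]; exact hA1 b
      have h8 : (Fintype.card L : ℝ) ^ Fintype.card κ ≤ (Fintype.card L : ℝ) ^ Fintype.card κ *
          ∑ i, ∑ b, ∑ a, G b * (1 - G (Function.update b i a)) :=
        le_mul_of_one_le_right (by positivity) h6
      have h9 : 0 ≤ R / (Fintype.card L : ℝ) ^ Fintype.card κ * ∑ b, G b := by positivity
      linarith
  · push Not at h1
    have h2 : ∀ b, G b = 0 := fun b => (hG b).resolve_right (h1 b)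
    have h3 : ∑ b, A b * G b = 0 := Finset.sum_eq_zero fun b _ => by rw [h2 b, mul_zero]
    rw [h3]
    positivity

end one

section ext

variable {E κ : Type} [Fintype E] [DecidableEq E] [Fintype κ] [DecidableEq κ]

omit [Fintype L] [Fintype E] [DecidableEq E] [Fintype κ] [DecidableEq κ] in
lemma ext_inv (ι : κ → E) (hι : Injective ι) : Involutive
    (fun p : (E → L) × (κ → L) => (extend ι p.2 p.1, fun j => p.1 (ι j))) := by
  rintro ⟨x, b⟩
  refine Prod.ext ?_ ?_
  · funext e
    by_cases he : ∃ j, ι j = e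
    · obtain ⟨j, rfl⟩ := he
      simp only [hι.extend_apply]
    · simp only [extend_apply' _ _ _ he]
  · funext j
    simp only [hι.extend_apply]

/-- averaging over the contents of a set of coordinates -/
lemma sum_ext (ι : κ → E) (hι : Injective ι) (F : (E → L) → ℝ) :
    ∑ x : E → L, ∑ b : κ → L, F (extend ι b x) =
      (Fintype.card L : ℝ) ^ Fintype.card κ * ∑ x, F x := by
  rw [← Fintype.sum_prod_type' (f := fun (x : E → L) (b : κ → L) => F (extend ι b x)),
    Fintype.sum_equiv (Involutive.toPerm _ (ext_inv (L := L) ι hι))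
      (fun p : (E → L) × (κ → L) => F (extend ι p.2 p.1)) (fun p => F p.1) (fun _ => rfl),
    Fintype.sum_prod_type]
  simp only [Finset.sum_const, Finset.card_univ, nsmul_eq_mul, Fintype.card_fun]
  rw [← Finset.mul_sum]
  push_cast
  rfl

omit [Fintype L] [Fintype E] [Fintype κ] in
lemma ext_update (ι : κ → E) (hι : Injective ι) (x : E → L) (b : κ → L) (j : κ) (a : L) :
    extend ι (Function.update b j a) x = Function.update (extend ι b x) (ι j) a := by
  funext e
  by_cases he : ∃ j', ι j' = e
  · obtain ⟨j', rfl⟩ := he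
    rw [hι.extend_apply]
    by_cases hj : j' = j
    · subst hj; simp
    · rw [update_of_ne hj, update_of_ne (fun h => hj (hι h)), hι.extend_apply]
  · rw [extend_apply' _ _ _ he, update_of_ne (fun h => he ⟨j, h.symm⟩), extend_apply' _ _ _ he]

/-- one block of coordinates -/
lemma block (ι : κ → E) (hι : Injective ι) (g A : (E → L) → ℝ) (hg : ∀ x, g x = 0 ∨ g x = 1)
    (hA0 : ∀ x, 0 ≤ A x) (hA1 : ∀ x, A x ≤ 1) (R : ℝ)
    (hR : ∀ x, ∑ b : κ → L, A (extend ι b x) ≤ R) (hL : 0 < Fintype.card L) :
    ∑ x, A x * g x ≤ (R / (Fintype.card L : ℝ) ^ Fintype.card κ) * ∑ x, g x +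
      (Fintype.card L : ℝ) ^ Fintype.card κ *
        ∑ j, ∑ x, ∑ a, g x * (1 - g (Function.update x (ι j) a)) := by
  have hq : (0 : ℝ) < Fintype.card L := by exact_mod_cast hL
  set Q : ℝ := (Fintype.card L : ℝ) ^ Fintype.card κ with hQ
  have hQ0 : 0 < Q := by positivity
  have h1 : ∀ x : E → L, ∑ b : κ → L, A (extend ι b x) * g (extend ι b x) ≤
      (R / Q) * ∑ b : κ → L, g (extend ι b x) +
      Q * ∑ j, ∑ b : κ → L, ∑ a, g (extend ι b x) *
        (1 - g (Function.update (extend ι b x) (ι j) a)) := by
    intro x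
    have := one_block (fun b : κ → L => g (extend ι b x)) (fun b => A (extend ι b x))
      (fun b => hg _) (fun b => hA0 _) (fun b => hA1 _) R (hR x)
    simp only [ext_update ι hι] at this
    exact this
  have h2 := Finset.sum_le_sum (fun (x : E → L) (_ : x ∈ univ) => h1 x)
  rw [sum_ext ι hι (fun x => A x * g x), Finset.sum_add_distrib, ← Finset.mul_sum,
    sum_ext ι hι g, ← Finset.mul_sum, Finset.sum_comm (s := univ) (t := univ)] at h2
  have h3 : ∀ j : κ, ∑ x : E → L, ∑ b : κ → L, ∑ a, g (extend ι b x) *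
        (1 - g (Function.update (extend ι b x) (ι j) a)) =
      Q * ∑ x, ∑ a, g x * (1 - g (Function.update x (ι j) a)) := fun j =>
    sum_ext ι hι (fun x => ∑ a, g x * (1 - g (Function.update x (ι j) a)))
  simp only [h3] at h2
  rw [← Finset.mul_sum, ← hQ] at h2
  refine le_of_mul_le_mul_left (h2.trans (le_of_eq ?_)) hQ0
  ring

/-- **Thin sets inside sets of low degree.** -/
theorem low_degree {γ : Type} [Fintype γ] [DecidableEq γ] [Nonempty γ] (ε : γ × κ → E)
    (hε : Injective ε) (g A : (E → L) → ℝ) (hg : ∀ x, g x = 0 ∨ g x = 1) {t : ℕ}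
    (hd : DegLe g t) (hA0 : ∀ x, 0 ≤ A x) (hA1 : ∀ x, A x ≤ 1) (R : ℝ)
    (hR : ∀ k x, ∑ b : κ → L, A (extend (fun j => ε (k, j)) b x) ≤ R)
    (hL : 0 < Fintype.card L) :
    ∑ x, A x * g x ≤ (R / (Fintype.card L : ℝ) ^ Fintype.card κ +
      2 * t * (Fintype.card L : ℝ) ^ (Fintype.card κ + 1) / Fintype.card γ) * ∑ x, g x := by
  classical
  have hinj : ∀ k, Injective (fun j => ε (k, j)) := fun k a b h => by
    have := hε h
    simpa using this
  have h1 := Finset.sum_le_sum (fun (k : γ) (_ : k ∈ univ) =>
    block (fun j => ε (k, j)) (hinj k) g A hg hA0 hA1 R (hR k) hL)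
  rw [Finset.sum_const, Finset.card_univ, nsmul_eq_mul, Finset.sum_add_distrib,
    Finset.sum_const, Finset.card_univ, nsmul_eq_mul, ← Finset.mul_sum] at h1
  have hterm : ∀ (i : E), 0 ≤ ∑ x, ∑ a, g x * (1 - g (Function.update x i a)) := by
    intro i
    refine Finset.sum_nonneg fun x _ => Finset.sum_nonneg fun a _ => ?_
    rcases hg x with h | h <;> rcases hg (Function.update x i a) with h' | h' <;> rw [h, h'] <;>
      norm_num
  have h2 : ∑ k : γ, ∑ j : κ, ∑ x, ∑ a, g x * (1 - g (Function.update x (ε (k, j)) a)) ≤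
      2 * t * Fintype.card L * ∑ x, g x := by
    refine le_trans ?_ (bd_letters g hg hd)
    rw [← Fintype.sum_prod_type' (f := fun k j => ∑ x, ∑ a, g x *
      (1 - g (Function.update x (ε (k, j)) a)))]
    rw [← Finset.sum_image (s := (univ : Finset (γ × κ))) (g := ε)
      (f := fun i => ∑ x, ∑ a, g x * (1 - g (Function.update x i a)))
      (fun a _ b _ h => hε h)]
    exact Finset.sum_le_sum_of_subset_of_nonneg (Finset.subset_univ _) (fun i _ _ => hterm i)
  have hγ : (0 : ℝ) < Fintype.card γ := by exact_mod_cast Fintype.card_pos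
  set Q : ℝ := (Fintype.card L : ℝ) ^ Fintype.card κ with hQ
  have hQ0 : 0 ≤ Q := by positivity
  have h3 := mul_le_mul_of_nonneg_left h2 hQ0
  have h4 : (Fintype.card γ : ℝ) * ∑ x, A x * g x ≤
      Fintype.card γ * ((R / Q) * ∑ x, g x) + Q * (2 * t * Fintype.card L * ∑ x, g x) := by
    linarith
  refine le_of_mul_le_mul_left (h4.trans (le_of_eq ?_)) hγ
  rw [pow_succ, ← hQ]
  field_simp

end ext

end Pool.Agent.X79.RF
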