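import Pool.Agent.X79.RF.Blk
import Pool.Agent.Y607.LP.Gen3
import Pool.Agent.X222.RW.Classes

set_option autoImplicit false
set_option linter.unnecessarySeqFocus false

/-!
# Thin sets inside sets of low degree and inside sets decided by small formulas
-/

namespace Pool.Agent.X79.RF

open Finset Pool.Agent.H564R2.QF Pool.Agent.Helper600R2.Sharp Function
open Pool.Agent.X222.RW Pool.Agent.Y607.LP

/-- a function of few bits has low degree -/
lemma dep_lowDeg {E : Type} [Fintype E] [DecidableEq E] (h : (E → Bool) → ℝ) (J : Finset E)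
    {t : ℕ} (hJ : J.card ≤ t) (hh : ∀ y y' : E → Bool, (∀ i ∈ J, y i = y' i) → h y = h y') :
    h ∈ LowDeg E t := by
  apply coef_lowDeg
  intro S hS
  have hne : ¬ S ⊆ J := fun hSJ => absurd (card_le_card hSJ) (by omega)
  obtain ⟨i, hiS, hiJ⟩ := not_subset.1 hne
  have h1 : (fun y => h (fl i y)) = h := by
    funext y
    apply hh
    intro j hj
    have : j ≠ i := fun h' => hiJ (h' ▸ hj)
    simp [fl, this]
  have h2 := coef_fl i h S
  rw [h1, if_pos hiS] at h2
  linarith

section

variable {α : Type} [Fintype α] [DecidableEq α] {n m R : ℕ}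

lemma thin_ext {A : Finset (Fin n → α)} (hT : Thin m R A) (ι : Fin m → Fin n)
    (hι : Injective ι) (u : Fin n → α) :
    ∑ b : Fin m → α, (if extend ι b u ∈ A then (1 : ℝ) else 0) ≤ R := by
  classical
  have h1 : ∑ b : Fin m → α, (if extend ι b u ∈ A then (1 : ℝ) else 0) =
      ((univ.filter fun b : Fin m → α => extend ι b u ∈ A).card : ℝ) := by
    rw [Finset.card_filter]
    push_cast
    rfl
  rw [h1]
  have h2 := hT (univ.map ⟨ι, hι⟩) (by rw [card_map, card_univ, Fintype.card_fin]) u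
  refine le_trans ?_ (Nat.cast_le.2 h2)
  rw [Nat.cast_le]
  refine Finset.card_le_card_of_injOn (fun b => extend ι b u) ?_ ?_
  · intro b hb
    have hb' := (mem_filter.1 (mem_coe.1 hb)).2
    refine mem_coe.2 (mem_filter.2 ⟨hb', fun i hi => ?_⟩)
    refine extend_apply' _ _ _ (fun ⟨j, hj⟩ => hi ?_)
    rw [mem_map]
    exact ⟨j, mem_univ _, hj⟩
  · intro b _ b' _ h
    funext j
    have := congrFun h (ι j)
    simp only [hι.extend_apply] at this
    exact this

/-- the indicator function -/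
def ind (F : Finset (Fin n → α)) (x : Fin n → α) : ℝ := if x ∈ F then 1 else 0

omit [Fintype α] in
lemma ind01 (F : Finset (Fin n → α)) (x : Fin n → α) : ind F x = 0 ∨ ind F x = 1 := by
  unfold ind
  split_ifs <;> simp

lemma sum_ind (F : Finset (Fin n → α)) : ∑ x, ind F x = F.card := by
  unfold ind
  simp

lemma sum_ind_mul (A F : Finset (Fin n → α)) :
    ∑ x, ind A x * ind F x = ((A ∩ F).card : ℝ) := by
  rw [← sum_ind]
  refine Finset.sum_congr rfl fun x _ => ?_
  unfold ind
  by_cases h1 : x ∈ A <;> by_cases h2 : x ∈ F <;> simp [h1, h2]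

/-- **Thin sets in sets of low degree.** -/
theorem rel_degree [Nonempty α] {t : ℕ} (hm : 1 ≤ m) (hmn : m ≤ n) (A F : Finset (Fin n → α))
    (hA : Thin m R A) (hF : DegLe (ind F) t) :
    ((A ∩ F).card : ℝ) ≤ (R / (Fintype.card α : ℝ) ^ m +
      2 * t * (Fintype.card α : ℝ) ^ (m + 1) / (n / m : ℕ)) * F.card := by
  classical
  have hg : 1 ≤ n / m := (Nat.le_div_iff_mul_le (by omega)).2 (by omega)
  have : Nonempty (Fin (n / m)) := ⟨⟨0, by omega⟩⟩
  have hnm : n / m * m ≤ n := Nat.div_mul_le_self n m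
  let ε : Fin (n / m) × Fin m → Fin n := fun p => Fin.castLE hnm (finProdFinEquiv p)
  have hε : Injective ε := fun a b h => finProdFinEquiv.injective (Fin.castLE_injective hnm h)
  have hinj : ∀ k, Injective (fun j => ε (k, j)) := fun k a b h => by
    have := hε h
    simpa using this
  have h1 := low_degree ε hε (ind F) (ind A) (ind01 F) hF
    (fun x => by rcases ind01 A x with h | h <;> rw [h] <;> norm_num)
    (fun x => by rcases ind01 A x with h | h <;> rw [h] <;> norm_num) R
    (fun k x => thin_ext hA _ (hinj k) x) Fintype.card_pos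
  rw [sum_ind_mul, sum_ind, Fintype.card_fin, Fintype.card_fin] at h1
  exact h1

end

section

variable {α : Type} [Fintype α] [DecidableEq α] {n m R ℓ M r : ℕ}

/-- the selected coordinates -/
def sel' (s : Fin ℓ → Fin M) (i : Fin ℓ) : Fin ℓ × Fin M := (i, s i)

lemma sel'_inj (s : Fin ℓ → Fin M) : Injective (sel' s) := fun _ _ h => (Prod.ext_iff.1 h).1

omit [DecidableEq α] [Fintype α] in
lemma good_deg (f : (Fin ℓ × Fin M → α) → ℝ) (t : ℕ) (s : Fin ℓ → Fin M)
    (x : Fin ℓ × Fin M → α) (h : Good f t s x) :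
    DegLe (fun c : Fin ℓ → α => f (extend (sel' s) c x)) t := by
  intro u v
  have h1 := h (fun w => u w.1) (fun w => v w.1)
  have h2 : cube f s x (fun w => u w.1) (fun w => v w.1) =
      fun y => f (extend (sel' s) (mx y u v) x) := by
    funext y
    unfold cube
    congr 1
    funext w
    by_cases hw : w.2 = s w.1
    · have e1 : w = sel' s w.1 := Prod.ext rfl hw
      rw [if_pos hw]
      conv_rhs => rw [e1]
      rw [(sel'_inj s).extend_apply]
      rfl
    · rw [if_neg hw, extend_apply']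
      rintro ⟨i, hi⟩
      apply hw
      rw [← hi]
      rfl
  rw [h2] at h1
  exact h1

omit [DecidableEq α] [Fintype α] in
lemma glue_ext (e : Fin n ≃ (Fin ℓ × Fin M) ⊕ Fin r) (s : Fin ℓ → Fin M) (κ : Fin m → Fin ℓ)
    (hκ : Injective κ) (b : Fin m → α) (c : Fin ℓ → α) (x : Fin ℓ × Fin M → α) (z : Fin r → α) :
    glue e (extend (sel' s) (extend κ b c) x) z =
      extend (fun j => e.symm (Sum.inl (sel' s (κ j)))) b (glue e (extend (sel' s) c x) z) := by
  have hinj : Injective (fun j => e.symm (Sum.inl (sel' s (κ j)))) := by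
    intro a b h
    exact hκ (sel'_inj s (Sum.inl_injective (e.symm.injective h)))
  funext v
  obtain ⟨w, rfl⟩ := e.symm.surjective v
  cases w with
  | inl w =>
    by_cases hw : ∃ i, sel' s i = w
    · obtain ⟨i, rfl⟩ := hw
      by_cases hi : ∃ j, κ j = i
      · obtain ⟨j, rfl⟩ := hi
        rw [hinj.extend_apply]
        simp [glue, (sel'_inj s).extend_apply, hκ.extend_apply]
      · rw [extend_apply' _ _ _ (by
          rintro ⟨j, hj⟩
          exact hi ⟨j, sel'_inj s (Sum.inl_injective (e.symm.injective hj))⟩)]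
        simp only [glue, Equiv.apply_symm_apply, Sum.elim_inl, (sel'_inj s).extend_apply,
          extend_apply' _ _ _ hi]
    · rw [extend_apply' _ _ _ (by
        rintro ⟨j, hj⟩
        exact hw ⟨κ j, Sum.inl_injective (e.symm.injective hj)⟩)]
      simp only [glue, Equiv.apply_symm_apply, Sum.elim_inl, extend_apply' _ _ _ hw]
  | inr q =>
    rw [extend_apply' _ _ _ (by
      rintro ⟨j, hj⟩
      have := e.symm.injective hj
      simp at this)]
    simp [glue]

open Classical in
/-- the inequality for given parameters -/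
theorem rel_params (e : Fin n ≃ (Fin ℓ × Fin M) ⊕ Fin r) (φ : Fml (Fin n × (α → Bool)))
    (t T : ℕ) (hL : 0 < Fintype.card α) (hT : 1 ≤ T) (hM : 613440 * Fintype.card α ^ 3 * T ≤ M)
    (hs : φ.size ≤ t * T ^ 2) (hm : 1 ≤ m) (hℓ : m ≤ ℓ) (A : Finset (Fin n → α))
    (hA : Thin m R A) :
    ∑ x, ind A x * (if Accp φ x then (1 : ℝ) else 0) ≤ (R / (Fintype.card α : ℝ) ^ m +
      2 * t * (Fintype.card α : ℝ) ^ (m + 1) / (ℓ / m : ℕ)) *
        ∑ x, (if Accp φ x then (1 : ℝ) else 0) + 2 * (1 / 4) ^ t * (Fintype.card α : ℝ) ^ n := by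
  have hq : (0 : ℝ) < Fintype.card α := by exact_mod_cast hL
  have hM1 : 1 ≤ M := le_trans (Nat.mul_pos (Nat.mul_pos (by norm_num) (Nat.pow_pos hL)) hT) hM
  have hg : 1 ≤ ℓ / m := (Nat.le_div_iff_mul_le (by omega)).2 (by omega)
  have : Nonempty (Fin (ℓ / m)) := ⟨⟨0, by omega⟩⟩
  have hnm : ℓ / m * m ≤ ℓ := Nat.div_mul_le_self ℓ m
  let ε : Fin (ℓ / m) × Fin m → Fin ℓ := fun p => Fin.castLE hnm (finProdFinEquiv p)
  have hε : Injective ε := fun a b h => finProdFinEquiv.injective (Fin.castLE_injective hnm h)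
  have hinj : ∀ k, Injective (fun j => ε (k, j)) := fun k a b h => by
    have := hε h
    simpa using this
  set K : ℝ := R / (Fintype.card α : ℝ) ^ m +
      2 * t * (Fintype.card α : ℝ) ^ (m + 1) / (ℓ / m : ℕ) with hK
  have hK0 : 0 ≤ K := by positivity
  have hz : ∀ z : Fin r → α, ∑ x : Fin ℓ × Fin M → α,
      ind A (glue e x z) * (if Accp φ (glue e x z) then (1 : ℝ) else 0) ≤
      K * ∑ x : Fin ℓ × Fin M → α, (if Accp φ (glue e x z) then (1 : ℝ) else 0) +
        2 * (1 / 4) ^ t * (Fintype.card α : ℝ) ^ (ℓ * M) := by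
    intro z
    set f : (Fin ℓ × Fin M → α) → ℝ := fun x => if Accp φ (glue e x z) then (1 : ℝ) else 0
      with hf
    have f01 : ∀ x, f x = 0 ∨ f x = 1 := by
      intro x; simp only [hf]; split_ifs <;> simp
    have h2 := few_bad_pts e φ z t T hL hT hM hs
    have h3 : ∀ s : Fin ℓ → Fin M, ∑ x, ind A (glue e x z) * f x ≤
        K * ∑ x, f x + ∑ x, (if Good f t s x then (0 : ℝ) else 1) := by
      intro s
      have h4 : ∀ x : Fin ℓ × Fin M → α,
          ∑ c : Fin ℓ → α, ind A (glue e (extend (sel' s) c x) z) * f (extend (sel' s) c x) ≤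
          K * ∑ c : Fin ℓ → α, f (extend (sel' s) c x) +
            (Fintype.card α : ℝ) ^ ℓ * (if Good f t s x then (0 : ℝ) else 1) := by
        intro x
        by_cases hgd : Good f t s x
        · rw [if_pos hgd, mul_zero, add_zero]
          have h5 := low_degree ε hε (fun c : Fin ℓ → α => f (extend (sel' s) c x))
            (fun c : Fin ℓ → α => ind A (glue e (extend (sel' s) c x) z)) (fun c => f01 _)
            (good_deg f t s x hgd)
            (fun c => by
              rcases ind01 A (glue e (extend (sel' s) c x) z) with h | h <;> rw [h] <;> norm_num)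
            (fun c => by
              rcases ind01 A (glue e (extend (sel' s) c x) z) with h | h <;> rw [h] <;> norm_num) R
            (fun k c => by
              simp only [glue_ext e s _ (hinj k)]
              exact thin_ext hA _ (fun a b h => hinj k (sel'_inj s (Sum.inl_injective
                (e.symm.injective h)))) _) hL
          rw [Fintype.card_fin, Fintype.card_fin] at h5
          exact h5
        · rw [if_neg hgd, mul_one]
          have h5 : ∑ c : Fin ℓ → α,
              ind A (glue e (extend (sel' s) c x) z) * f (extend (sel' s) c x) ≤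
              ∑ _c : Fin ℓ → α, (1 : ℝ) := by
            refine Finset.sum_le_sum fun c _ => ?_
            rcases ind01 A (glue e (extend (sel' s) c x) z) with h | h <;>
              rcases f01 (extend (sel' s) c x) with h' | h' <;> rw [h, h'] <;> norm_num
          have h6 : ∑ _c : Fin ℓ → α, (1 : ℝ) = (Fintype.card α : ℝ) ^ ℓ := by simp
          have h7 : 0 ≤ ∑ c : Fin ℓ → α, f (extend (sel' s) c x) :=
            Finset.sum_nonneg fun c _ => by
              rcases f01 (extend (sel' s) c x) with h' | h' <;> rw [h'] <;> norm_num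
          have h8 := mul_nonneg hK0 h7
          linarith
      have h5 := Finset.sum_le_sum (fun (x : Fin ℓ × Fin M → α) (_ : x ∈ univ) => h4 x)
      rw [sum_ext (sel' s) (sel'_inj s) (fun x => ind A (glue e x z) * f x),
        Finset.sum_add_distrib, ← Finset.mul_sum, ← Finset.mul_sum,
        sum_ext (sel' s) (sel'_inj s) f, Fintype.card_fin] at h5
      have hpos : (0 : ℝ) < (Fintype.card α : ℝ) ^ ℓ := by positivity
      refine le_of_mul_le_mul_left (h5.trans (le_of_eq ?_)) hpos
      ring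
    have h4 := Finset.sum_le_sum (fun (s : Fin ℓ → Fin M) (_ : s ∈ univ) => h3 s)
    rw [Finset.sum_const, Finset.card_univ, Fintype.card_fun, nsmul_eq_mul,
      Finset.sum_add_distrib, Finset.sum_const, Finset.card_univ, Fintype.card_fun,
      nsmul_eq_mul, Fintype.card_fin, Fintype.card_fin] at h4
    push_cast at h4
    have h5 := h4.trans (add_le_add_right h2 _)
    have hpos : (0 : ℝ) < (M : ℝ) ^ ℓ := by
      have : (0 : ℝ) < M := by exact_mod_cast hM1
      positivity
    refine le_of_mul_le_mul_left (h5.trans (le_of_eq ?_)) hpos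
    ring
  let E : ((Fin ℓ × Fin M → α) × (Fin r → α)) ≃ (Fin n → α) :=
    (Equiv.sumArrowEquivProdArrow _ _ _).symm.trans (Equiv.arrowCongr e.symm (Equiv.refl α))
  have hE : ∀ p, E p = glue e p.1 p.2 := by
    intro p
    funext v
    simp only [E, glue, Equiv.trans_apply, Equiv.arrowCongr_apply]
    rfl
  have hsum : ∀ H : (Fin n → α) → ℝ, ∑ x, H x =
      ∑ z : Fin r → α, ∑ x : Fin ℓ × Fin M → α, H (glue e x z) := by
    intro H
    rw [← Fintype.sum_equiv E (fun p => H (glue e p.1 p.2)) H (fun p => by rw [hE]),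
      Fintype.sum_prod_type, Finset.sum_comm]
  have hn : n = ℓ * M + r := by
    have := Fintype.card_congr e
    simpa using this
  have hpow : (Fintype.card α : ℝ) ^ n =
      (Fintype.card α : ℝ) ^ (ℓ * M) * (Fintype.card α : ℝ) ^ r := by
    rw [← pow_add, ← hn]
  rw [hsum, hsum (fun x => if Accp φ x then (1 : ℝ) else 0), hpow]
  refine (Finset.sum_le_sum (fun z _ => hz z)).trans (le_of_eq ?_)
  rw [Finset.sum_add_distrib, ← Finset.mul_sum, Finset.sum_const, Finset.card_univ,
    Fintype.card_fun, Fintype.card_fin, nsmul_eq_mul]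
  push_cast
  ring

end

/-- **Thin sets in sets decided by small formulas.** -/
theorem rel_formula {α : Type} [Fintype α] [DecidableEq α] [Nonempty α] (m R : ℕ) (hm : 1 ≤ m)
    {δ : ℝ} (hδ : 0 < δ) : ∃ c : ℝ, 0 < c ∧ ∀ (n S : ℕ) (φ : Fml (Fin n × (α → Bool))),
      φ.size ≤ S → ∀ A F : Finset (Fin n → α), Thin m R A → (∀ x, x ∈ F ↔ Accp φ x) →
      ((A ∩ F).card : ℝ) ≤ (R / (Fintype.card α : ℝ) ^ m + δ) * F.card +
        2 * (Fintype.card α : ℝ) ^ n * Real.exp (-(c * n ^ 2 / (S + n))) := by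
  classical
  set q := Fintype.card α with hq
  have hq1 : 1 ≤ q := Fintype.card_pos
  have hqr : (0 : ℝ) < q := by exact_mod_cast hq1
  obtain ⟨K, hK⟩ := exists_nat_gt ((q : ℝ) ^ (m + 1) / δ)
  have hK0 : (0 : ℝ) < K := lt_of_le_of_lt (by positivity) hK
  have hK1 : 1 ≤ K := by
    have : 0 < K := by exact_mod_cast hK0
    exact this
  set k := 2 * m * K with hk
  have hk2 : 2 ≤ k := by
    rw [hk]
    calc 2 = 2 * 1 * 1 := rfl
      _ ≤ 2 * m * K := Nat.mul_le_mul (Nat.mul_le_mul_left 2 hm) hK1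
  set M0 := 613440 * q ^ 3 with hM0
  have hM01 : 1 ≤ M0 := Nat.mul_pos (by norm_num) (Nat.pow_pos hq1)
  set c : ℝ := 1 / (20 * M0 ^ 2 * k ^ 2) with hc
  have hM0r : (0 : ℝ) < M0 := by exact_mod_cast hM01
  have hkr : (0 : ℝ) < k := by exact_mod_cast (by omega : 0 < k)
  have hc0 : 0 < c := by positivity
  refine ⟨c, hc0, fun n S φ hφ A F hA hF => ?_⟩
  have hAF : ((A ∩ F).card : ℝ) = ∑ x, ind A x * (if Accp φ x then (1 : ℝ) else 0) := by
    rw [← sum_ind_mul]
    refine Finset.sum_congr rfl fun x _ => ?_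
    congr 1
    unfold ind
    exact if_congr (hF x) rfl rfl
  have hFs : (F.card : ℝ) = ∑ x, (if Accp φ x then (1 : ℝ) else 0) := by
    rw [← sum_ind]
    refine Finset.sum_congr rfl fun x _ => ?_
    unfold ind
    exact if_congr (hF x) rfl rfl
  have hall : ((A ∩ F).card : ℝ) ≤ (q : ℝ) ^ n := by
    have := card_le_univ (A ∩ F)
    rw [Fintype.card_fun, Fintype.card_fin] at this
    exact_mod_cast this
  have htriv : c * (n : ℝ) ^ 2 / (S + n) ≤ 1 / 2 →
      ((A ∩ F).card : ℝ) ≤ (R / (q : ℝ) ^ m + δ) * F.card +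
        2 * (q : ℝ) ^ n * Real.exp (-(c * n ^ 2 / (S + n))) := by
    intro h
    have h1 : (1 : ℝ) / 2 ≤ Real.exp (-(c * (n : ℝ) ^ 2 / (S + n))) := by
      have := Real.add_one_le_exp (-(c * (n : ℝ) ^ 2 / (S + n)))
      linarith
    have h2 : (0 : ℝ) ≤ (R / (q : ℝ) ^ m + δ) * F.card := by positivity
    have h3 : (q : ℝ) ^ n ≤ 2 * (q : ℝ) ^ n * Real.exp (-(c * n ^ 2 / (S + n))) := by
      have : (0 : ℝ) < (q : ℝ) ^ n := by positivity
      nlinarith
    linarith
  rcases Nat.eq_zero_or_pos n with hn | hn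
  · apply htriv
    subst hn
    norm_num
  have hce : (n : ℝ) ^ 2 / (20 * M0 ^ 2 * k ^ 2 * (S + n)) = c * (n : ℝ) ^ 2 / (S + n) := by
    rw [hc]
    field_simp
  rcases paramsG n S k M0 hk2 hM01 hn with ⟨ℓ, M, r, t, T, hnr, hT, hMT, hST, hkt, hb⟩ | hb
  · rw [hce] at hb
    rcases Nat.eq_zero_or_pos t with ht | ht
    · apply htriv
      rw [ht, Nat.cast_zero] at hb
      linarith
    have hℓ : m ≤ ℓ := by
      have h1 : k * 1 ≤ k * t := Nat.mul_le_mul_left k ht
      have h2 : m ≤ k := by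
        rw [hk]
        calc m = 1 * m * 1 := by ring
          _ ≤ 2 * m * K := Nat.mul_le_mul (Nat.mul_le_mul_right m (by norm_num)) hK1
      omega
    let e : Fin n ≃ (Fin ℓ × Fin M) ⊕ Fin r :=
      (finCongr hnr).trans (finSumFinEquiv.symm.trans
        (Equiv.sumCongr finProdFinEquiv.symm (Equiv.refl _)))
    have h1 := rel_params (R := R) e φ t T hq1 hT hMT (hφ.trans hST) hm hℓ A hA
    rw [← hAF, ← hFs] at h1
    -- the number of blocks
    have hg : 2 * K * t ≤ ℓ / m := by
      rw [Nat.le_div_iff_mul_le (by omega)]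
      have : 2 * K * t * m = k * t := by rw [hk]; ring
      omega
    have hgr : (2 * K * t : ℝ) ≤ ((ℓ / m : ℕ) : ℝ) := by exact_mod_cast hg
    have htr : (0 : ℝ) < t := by exact_mod_cast ht
    have h2 : 2 * t * (q : ℝ) ^ (m + 1) / (ℓ / m : ℕ) ≤ δ := by
      have h3 : (0 : ℝ) < ((ℓ / m : ℕ) : ℝ) := lt_of_lt_of_le (by positivity) hgr
      rw [div_le_iff₀ h3]
      have h4 : (q : ℝ) ^ (m + 1) ≤ K * δ := by
        rw [div_lt_iff₀ hδ] at hK
        exact hK.le
      calc 2 * t * (q : ℝ) ^ (m + 1) ≤ 2 * t * (K * δ) := by gcongr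
        _ = δ * (2 * K * t) := by ring
        _ ≤ δ * ((ℓ / m : ℕ) : ℝ) := mul_le_mul_of_nonneg_left hgr hδ.le
    have h3 : (R / (q : ℝ) ^ m + 2 * t * (q : ℝ) ^ (m + 1) / (ℓ / m : ℕ)) * F.card ≤
        (R / (q : ℝ) ^ m + δ) * F.card := by
      apply mul_le_mul_of_nonneg_right _ (by positivity)
      linarith
    have h4 : (1 / 4 : ℝ) ^ t ≤ Real.exp (-(c * n ^ 2 / (S + n))) := by
      have h5 : (1 / 4 : ℝ) ≤ Real.exp (-1) := by
        have h6 := Real.exp_one_lt_d9
        rw [Real.exp_neg, one_div]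
        apply inv_anti₀ (Real.exp_pos 1)
        linarith
      calc (1 / 4 : ℝ) ^ t ≤ (Real.exp (-1)) ^ t := pow_le_pow_left₀ (by norm_num) h5 t
        _ = Real.exp (-t) := by
            rw [← Real.exp_nat_mul]
            congr 1
            ring
        _ ≤ _ := Real.exp_le_exp.2 (by linarith)
    have h5 : 2 * (1 / 4 : ℝ) ^ t * (q : ℝ) ^ n ≤
        2 * (q : ℝ) ^ n * Real.exp (-(c * n ^ 2 / (S + n))) := by
      have : (0 : ℝ) < (q : ℝ) ^ n := by positivity
      nlinarith
    linarith
  · rw [hce] at hb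
    exact htriv hb

end Pool.Agent.X79.RF
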