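import Pool.Agent.X79.RF.Main
import Pool.Agent.X79.HJ.Avg
import Pool.Agent.TH484.PH.Rel

set_option autoImplicit false

/-!
# Families of subsets of `[N]^d` which are not good, inside families with a small boundary
-/

namespace Pool.Agent.X79.RF

open Finset Function Pool.Agent.H564R2.QF Pool.Agent.Helper600R2.Sharp Pool.Agent.H720R3
open Pool.Agent.TH484.PH Pool.Agent.X79.HJ

section sets

variable {E : Type} [Fintype E] [DecidableEq E]

/-- the set of the true bits -/
def toS : (E → Bool) ≃ Finset E where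
  toFun y := univ.filter fun e => y e = true
  invFun A := fun e => decide (e ∈ A)
  left_inv y := by funext e; simp
  right_inv A := by ext e; simp

lemma mem_toS {y : E → Bool} {e : E} : e ∈ toS y ↔ y e = true := by
  simp [toS]

lemma toS_symm (A : Finset E) (e : E) : toS.symm A e = decide (e ∈ A) := rfl

lemma toS_fl (e : E) (y : E → Bool) : toS (fl e y) = symmDiff (toS y) {e} := by
  ext a
  rw [mem_symmDiff, mem_singleton, mem_toS, mem_toS]
  by_cases h : a = e
  · subst h
    simp [fl]
  · simp [fl, h]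

/-- the indicator function -/
def inds (F : Finset (Finset E)) (y : E → Bool) : ℝ := if toS y ∈ F then 1 else 0

lemma inds01 (F : Finset (Finset E)) (y : E → Bool) : inds F y = 0 ∨ inds F y = 1 := by
  unfold inds
  split_ifs <;> simp

lemma sum_inds (F : Finset (Finset E)) : ∑ y, inds F y = F.card := by
  unfold inds
  rw [Fintype.sum_equiv toS (fun y => if toS y ∈ F then (1 : ℝ) else 0)
    (fun A => if A ∈ F then 1 else 0) (fun _ => rfl)]
  simp

lemma sum_inds_mul (S F : Finset (Finset E)) : ∑ y, inds S y * inds F y = ((S ∩ F).card : ℝ) := by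
  rw [← sum_inds]
  refine Finset.sum_congr rfl fun x _ => ?_
  unfold inds
  by_cases h1 : toS x ∈ S <;> by_cases h2 : toS x ∈ F <;> simp [h1, h2]

/-- the boundary of `F` in the direction `e` -/
def bdy (F : Finset (Finset E)) (e : E) : ℕ := (F.filter fun A => symmDiff A {e} ∉ F).card

lemma bdy_eq (F : Finset (Finset E)) (e : E) :
    ∑ y, inds F y * (1 - inds F (fl e y)) = bdy F e := by
  unfold bdy inds
  rw [Fintype.sum_equiv toS _ (fun A => if A ∈ F ∧ symmDiff A {e} ∉ F then (1 : ℝ) else 0)
    (fun y => by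
      rw [toS_fl]
      by_cases h1 : toS y ∈ F <;> by_cases h2 : symmDiff (toS y) {e} ∈ F <;> simp [h1, h2])]
  rw [← Finset.sum_filter, Finset.sum_const, nsmul_eq_mul, mul_one]
  congr 2
  ext A
  simp

lemma bdy_update (F : Finset (Finset E)) (e : E) :
    ∑ y, ∑ a, inds F y * (1 - inds F (Function.update y e a)) = bdy F e := by
  rw [← bdy_eq]
  refine Finset.sum_congr rfl fun y _ => ?_
  rw [Fintype.sum_bool]
  have h0 : inds F y * (1 - inds F y) = 0 := by
    rcases inds01 F y with h | h <;> rw [h] <;> norm_num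
  cases hy : y e
  · have h1 : Function.update y e false = y := by rw [← hy]; exact update_eq_self e y
    have h2 : Function.update y e true = fl e y := by unfold fl; rw [hy]; rfl
    rw [h1, h2, h0, add_zero]
  · have h1 : Function.update y e true = y := by rw [← hy]; exact update_eq_self e y
    have h2 : Function.update y e false = fl e y := by unfold fl; rw [hy]; rfl
    rw [h1, h2, h0, zero_add]

/-- A sum of functions, each depending on at most `t` coordinates in `K`. -/
theorem bdy_degree (F : Finset (Finset E)) (K : Finset E) (t : ℕ) (P : Finset (Finset E))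
    (g : Finset E → Finset E → ℝ) (hP : ∀ T ∈ P, (T ∩ K).card ≤ t)
    (hg : ∀ T A A', A ∩ T = A' ∩ T → g T A = g T A')
    (hF : ∀ A, (if A ∈ F then (1 : ℝ) else 0) = ∑ T ∈ P, g T A) :
    ∑ e ∈ K, (bdy F e : ℝ) ≤ 2 * t * F.card := by
  set h : (E → Bool) → ℝ := inds F with hh
  have hcoef : ∀ S : Finset E, t < (S ∩ K).card → coef h S = 0 := by
    intro S hS
    have h1 : coef h S = ∑ T ∈ P, coef (fun y => g T (toS y)) S := by
      unfold coef
      rw [← Finset.sum_div, Finset.sum_comm]
      congr 1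
      refine Finset.sum_congr rfl fun y _ => ?_
      rw [← Finset.sum_mul, ← hF]
      rfl
    rw [h1]
    refine Finset.sum_eq_zero fun T hT => ?_
    have hne : ¬ S ⊆ T := fun hST => by
      have := card_le_card (inter_subset_inter_right (u := K) hST)
      have := hP T hT
      omega
    obtain ⟨i, hiS, hiT⟩ := not_subset.1 hne
    have h3 : (fun y => g T (toS (fl i y))) = fun y => g T (toS y) := by
      funext y
      apply hg
      ext a
      rw [mem_inter, mem_inter, mem_toS, mem_toS]
      refine and_congr_left fun ha => ?_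
      have : a ≠ i := fun h' => hiT (h' ▸ ha)
      simp [fl, this]
    have h2 := coef_fl i (fun y => g T (toS y)) S
    rw [h3, if_pos hiS] at h2
    linarith
  have h01 : ∀ y, h y = 0 ∨ h y = 1 := inds01 F
  have h1 : ∑ e ∈ K, (bdy F e : ℝ) =
      2 ^ Fintype.card E * ∑ S : Finset E, 2 * ((S ∩ K).card : ℝ) * coef h S ^ 2 := by
    rw [Finset.mul_sum]
    simp only [← bdy_eq, ← hh, bd_one h h01]
    rw [← Finset.mul_sum, Finset.sum_comm, Finset.mul_sum]
    refine Finset.sum_congr rfl fun S _ => ?_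
    congr 1
    rw [← Finset.sum_filter, Finset.filter_mem_eq_inter, Finset.sum_const, nsmul_eq_mul,
      inter_comm]
    ring
  have h2 : ∀ S : Finset E, 2 * ((S ∩ K).card : ℝ) * coef h S ^ 2 ≤ 2 * t * coef h S ^ 2 := by
    intro S
    by_cases hS : (S ∩ K).card ≤ t
    · have : ((S ∩ K).card : ℝ) ≤ t := by exact_mod_cast hS
      nlinarith [sq_nonneg (coef h S)]
    · rw [hcoef S (by omega)]
      simp
  have h3 := parseval h
  have h4 : ∑ y, h y ^ 2 = F.card := by
    rw [← sum_inds]
    refine Finset.sum_congr rfl (fun y _ => ?_)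
    rcases h01 y with a | a <;> rw [← hh, a] <;> norm_num
  rw [h4, eq_div_iff two_pow_pos'.ne'] at h3
  rw [h1]
  calc 2 ^ Fintype.card E * ∑ S : Finset E, 2 * ((S ∩ K).card : ℝ) * coef h S ^ 2
      ≤ 2 ^ Fintype.card E * ∑ S : Finset E, 2 * t * coef h S ^ 2 :=
        mul_le_mul_of_nonneg_left (Finset.sum_le_sum (fun S _ => h2 S)) (by positivity)
    _ = 2 * t * ((∑ S : Finset E, coef h S ^ 2) * 2 ^ Fintype.card E) := by
        rw [← Finset.mul_sum]; ring
    _ = 2 * t * F.card := by rw [h3]

end sets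

section blocks

variable {N d m M : ℕ}

lemma mem_pw' {γ : Finset (Fin N)} {x : Fin d → Fin N} : x ∈ pw d γ ↔ ∀ l, x l ∈ γ := by
  simp [pw]

/-- a family that is not good is thin on the cells of a small set of indices -/
lemma thin_block {S : Finset (Finset (Fin d → Fin N))} (hS : ¬ GoodF S) {r : ℕ}
    (hr : ∀ B : Finset (Finset (Fin d → Fin m)), ¬ GoodF B → B.card ≤ r)
    (a : Fin m → Fin N) (ha : Injective a) (x : (Fin d → Fin N) → Bool) :
    ∑ b : (Fin d → Fin m) → Bool,
      inds S (extend (fun (c : Fin d → Fin m) (l : Fin d) => a (c l)) b x) ≤ r := by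
  classical
  set ι : (Fin d → Fin m) → (Fin d → Fin N) := fun c l => a (c l) with hι
  have hinj : Injective ι := fun c c' h => funext fun l => ha (congrFun h l)
  set B : Finset (Finset (Fin d → Fin m)) :=
    univ.filter fun b => toS (extend ι (toS.symm b) x) ∈ S with hB
  have h1 : ∑ b : (Fin d → Fin m) → Bool, inds S (extend ι b x) = B.card := by
    rw [Fintype.sum_equiv toS _ (fun b' => if toS (extend ι (toS.symm b') x) ∈ S then (1 : ℝ)
      else 0) (fun b => by rw [Equiv.symm_apply_apply]; rfl)]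
    rw [← Finset.sum_filter, Finset.sum_const, nsmul_eq_mul, mul_one]
  rw [h1, Nat.cast_le]
  apply hr
  rintro ⟨b, hb, γ, hγ, hdisj, hun⟩
  rw [hB, mem_filter] at hb hun
  have hrange : ∀ e : Fin d → Fin N, e ∈ pw d (γ.image a) → ∃ c ∈ pw d γ, ι c = e := by
    intro e he
    rw [mem_pw'] at he
    have h2 : ∀ l, ∃ c ∈ γ, a c = e l := fun l => mem_image.1 (he l)
    choose c hc hce using h2
    exact ⟨c, mem_pw'.2 hc, funext hce⟩
  have hback : ∀ c : Fin d → Fin m, ι c ∈ pw d (γ.image a) ↔ c ∈ pw d γ := by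
    intro c
    rw [mem_pw', mem_pw']
    refine forall_congr' fun l => ?_
    constructor
    · intro h
      obtain ⟨c', h3, h4⟩ := mem_image.1 h
      rwa [← ha h4]
    · exact fun h => mem_image_of_mem _ h
  apply hS
  refine ⟨toS (extend ι (toS.symm b) x), hb.2, γ.image a, hγ.image a, ?_, ?_⟩
  · rw [Finset.disjoint_left]
    intro e he he'
    obtain ⟨c, hc, rfl⟩ := hrange e he'
    rw [mem_toS, hinj.extend_apply, toS_symm, decide_eq_true_eq] at he
    exact Finset.disjoint_left.1 hdisj he hc
  · have h2 : toS (extend ι (toS.symm b) x) ∪ pw d (γ.image a) =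
        toS (extend ι (toS.symm (b ∪ pw d γ)) x) := by
      ext e
      rw [mem_union, mem_toS, mem_toS]
      by_cases he : ∃ c, ι c = e
      · obtain ⟨c, rfl⟩ := he
        rw [hinj.extend_apply, hinj.extend_apply, toS_symm, toS_symm, decide_eq_true_eq,
          decide_eq_true_eq, mem_union, hback]
      · rw [extend_apply' _ _ _ he, extend_apply' _ _ _ he]
        refine or_iff_left fun h => he ?_
        obtain ⟨c, _, hc⟩ := hrange e h
        exact ⟨c, hc⟩
    rw [h2]
    exact hun.2

/-- the cells of the blocks -/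
def cellOf (π : Equiv.Perm (Fin N)) (h : M * m ≤ N) (p : Fin M × (Fin d → Fin m)) :
    Fin d → Fin N :=
  fun l => π.symm (Fin.castLE h (finProdFinEquiv (p.1, p.2 l)))

lemma cellOf_inj (hd : 1 ≤ d) (π : Equiv.Perm (Fin N)) (h : M * m ≤ N) :
    Injective (cellOf π h : Fin M × (Fin d → Fin m) → Fin d → Fin N) := by
  rintro ⟨j, c⟩ ⟨j', c'⟩ he
  have h1 : ∀ l, (j, c l) = (j', c' l) := fun l =>
    finProdFinEquiv.injective (Fin.castLE_injective h (π.symm.injective (congrFun he l)))
  refine Prod.ext ?_ ?_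
  · exact (Prod.ext_iff.1 (h1 ⟨0, hd⟩)).1
  · funext l
    exact (Prod.ext_iff.1 (h1 l)).2

/-- averaging over all systems of blocks -/
lemma exists_cells (hd : 1 ≤ d) (hm : 1 ≤ m) (hN : 2 * d ≤ N) (h : M * m ≤ N)
    (w : (Fin d → Fin N) → ℝ) (hw : ∀ x, 0 ≤ w x) :
    ∃ π : Equiv.Perm (Fin N), ∑ p : Fin M × (Fin d → Fin m), w (cellOf π h p) ≤
      (2 * m) ^ d * M * ∑ x : Fin d → Fin N, w x * (1 / (N : ℝ) ^ (univ.image x).card) := by
  classical
  have hinj : ∀ j : Fin M, Injective fun c : Fin m => Fin.castLE h (finProdFinEquiv (j, c)) := by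
    intro j c c' he
    exact (Prod.ext_iff.1 (finProdFinEquiv.injective (Fin.castLE_injective h he))).2
  obtain ⟨π, hπ⟩ := exists_perm hm hN (by omega)
    (fun j : Fin M => univ.image fun c : Fin m => Fin.castLE h (finProdFinEquiv (j, c)))
    (fun j => by rw [card_image_of_injective _ (hinj j), card_univ, Fintype.card_fin]) w hw
  refine ⟨π, le_trans ?_ hπ⟩
  rw [Fintype.sum_prod_type]
  refine Finset.sum_le_sum fun j _ => ?_
  have hcinj : Injective fun c : Fin d → Fin m => cellOf π h (j, c) := fun c c' he =>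
    (Prod.ext_iff.1 (cellOf_inj hd π h he)).2
  rw [← Finset.sum_image (s := (univ : Finset (Fin d → Fin m)))
    (g := fun c : Fin d → Fin m => cellOf π h (j, c)) (f := w) (fun a _ b _ he => hcinj he)]
  refine Finset.sum_le_sum_of_subset_of_nonneg ?_ (fun x _ _ => hw x)
  intro e he
  obtain ⟨c, _, rfl⟩ := mem_image.1 he
  rw [mem_pw']
  intro l
  rw [mem_filter]
  refine ⟨mem_univ _, ?_⟩
  unfold cellOf
  rw [Equiv.apply_symm_apply]
  exact mem_image_of_mem _ (mem_univ _)

/-- **Families with a small boundary near the diagonal.** -/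
theorem rel_boundary (hd : 1 ≤ d) (hm : 1 ≤ m) (hmN : m ≤ N) (hN : 2 * d ≤ N)
    (F S : Finset (Finset (Fin d → Fin N))) (hS : ¬ GoodF S) {r : ℕ}
    (hr : ∀ B : Finset (Finset (Fin d → Fin m)), ¬ GoodF B → B.card ≤ r) :
    ((S ∩ F).card : ℝ) ≤ r / 2 ^ (m ^ d) * F.card + 2 ^ (m ^ d) * ((2 * m) ^ d *
      ∑ x : Fin d → Fin N, (bdy F x : ℝ) * (1 / (N : ℝ) ^ (univ.image x).card)) := by
  classical
  have h1m : 1 * m ≤ N := by omega
  obtain ⟨π, hπ⟩ := exists_cells hd hm hN h1m (fun x => (bdy F x : ℝ)) (fun x => Nat.cast_nonneg _)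
  set a : Fin m → Fin N := fun c => π.symm (Fin.castLE h1m (finProdFinEquiv ((0 : Fin 1), c)))
    with ha
  have hainj : Injective a := fun c c' he => (Prod.ext_iff.1 (finProdFinEquiv.injective
    (Fin.castLE_injective h1m (π.symm.injective he)))).2
  set ι : (Fin d → Fin m) → (Fin d → Fin N) := fun c l => a (c l) with hι
  have hinj : Injective ι := fun c c' h => funext fun l => hainj (congrFun h l)
  have h1 := block (L := Bool) ι hinj (inds F) (inds S) (inds01 F)
    (fun x => by rcases inds01 S x with h | h <;> rw [h] <;> norm_num)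
    (fun x => by rcases inds01 S x with h | h <;> rw [h] <;> norm_num) r
    (fun x => thin_block hS hr a hainj x) (by simp)
  rw [sum_inds_mul, sum_inds] at h1
  simp only [bdy_update] at h1
  have h2 : ∑ j : Fin d → Fin m, (bdy F (ι j) : ℝ) =
      ∑ p : Fin 1 × (Fin d → Fin m), (bdy F (cellOf π h1m p) : ℝ) := by
    rw [Fintype.sum_prod_type]
    simp only [univ_unique, sum_singleton]
    rfl
  rw [h2] at h1
  have h3 : Fintype.card (Fin d → Fin m) = m ^ d := by simp
  rw [h3, Fintype.card_bool] at h1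
  push_cast at h1 hπ
  have h4 := mul_le_mul_of_nonneg_left hπ (by positivity : (0 : ℝ) ≤ 2 ^ (m ^ d))
  rw [mul_one] at h4
  linarith

end blocks

end Pool.Agent.X79.RF
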