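import Pool.Agent.X79.RF.PH

set_option autoImplicit false

/-!
# Families of subsets of `[N]^d` which are not good, inside families decided by small formulas
-/

namespace Pool.Agent.X79.RF

open Finset Function Pool.Agent.H564R2.QF Pool.Agent.Helper600R2.Sharp Pool.Agent.H720R3
open Pool.Agent.TH484.PH Pool.Agent.X79.HJ Pool.Agent.Y607.LP Pool.Agent.X222.RW

/-- the sum of the weights of the leaves -/
def lvs {V : Type} (w : V → ℕ) : Fml V → ℕ
  | .const _ => 0
  | .var v => w v
  | .neg f => lvs w f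
  | .and f g => lvs w f + lvs w g
  | .or f g => lvs w f + lvs w g

lemma lvs_mono {V : Type} {w w' : V → ℕ} (h : ∀ v, w v ≤ w' v) (f : Fml V) :
    lvs w f ≤ lvs w' f := by
  induction f with
  | const b => exact le_rfl
  | var v => exact h v
  | neg f ih => exact ih
  | and f g ih ih' => exact Nat.add_le_add ih ih'
  | or f g ih ih' => exact Nat.add_le_add ih ih'

lemma lvs_sum {V I : Type} (s : Finset I) (w : I → V → ℕ) (f : Fml V) :
    lvs (fun v => ∑ i ∈ s, w i v) f = ∑ i ∈ s, lvs (w i) f := by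
  induction f with
  | const b => simp [lvs]
  | var v => rfl
  | neg f ih => exact ih
  | and f g ih ih' => simp only [lvs, ih, ih', Finset.sum_add_distrib]
  | or f g ih ih' => simp only [lvs, ih, ih', Finset.sum_add_distrib]

section res

variable {E κ : Type} [DecidableEq E] {M : ℕ}

open Classical in
/-- the formula for the contents of the blocks -/
noncomputable def res (ι : Fin M × κ → E) (x : E → Bool) :
    Fml E → Fml (Fin M × ((κ → Bool) → Bool))
  | .const b => .const b
  | .var e => if h : ∃ p, ι p = e then .var (h.choose.1, fun w => w h.choose.2) else .const (x e)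
  | .neg f => .neg (res ι x f)
  | .and f g => .and (res ι x f) (res ι x g)
  | .or f g => .or (res ι x f) (res ι x g)

lemma res_eval' (ι : Fin M × κ → E) (x : E → Bool) (f : Fml E) (c : Fin M → κ → Bool) :
    (res ι x f).eval (fun v => v.2 (c v.1)) = f.eval (extend ι (fun p => c p.1 p.2) x) := by
  induction f with
  | const b => rfl
  | var e =>
    unfold res
    by_cases h : ∃ p, ι p = e
    · rw [dif_pos h]
      simp only [Fml.eval]
      unfold Function.extend
      rw [dif_pos h]
    · rw [dif_neg h]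
      simp only [Fml.eval]
      rw [extend_apply' _ _ _ h]
  | neg f ih => simp only [res, Fml.eval, ih]
  | and f g ih ih' => simp only [res, Fml.eval, ih, ih']
  | or f g ih ih' => simp only [res, Fml.eval, ih, ih']

lemma res_eval (ι : Fin M × κ → E) (x : E → Bool) (f : Fml E) (c : Fin M → κ → Bool) :
    Accp (res ι x f) c ↔ f.eval (extend ι (fun p => c p.1 p.2) x) = true := by
  unfold Accp
  rw [res_eval']

lemma res_size [Fintype κ] (ι : Fin M × κ → E) (x : E → Bool) (f : Fml E) :
    (res ι x f).size ≤ ∑ p : Fin M × κ, lvs (fun e => if e = ι p then 1 else 0) f := by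
  rw [← lvs_sum]
  induction f with
  | const b => exact le_rfl
  | var e =>
    unfold res lvs
    by_cases h : ∃ p, ι p = e
    · rw [dif_pos h]
      obtain ⟨p, rfl⟩ := h
      show 1 ≤ _
      refine le_trans (le_of_eq ?_) (Finset.single_le_sum (f := fun q : Fin M × κ =>
        if ι p = ι q then 1 else 0) (fun q _ => Nat.zero_le _) (Finset.mem_univ p))
      simp
    · rw [dif_neg h]
      exact Nat.zero_le _
  | neg f ih => exact ih
  | and f g ih ih' => exact Nat.add_le_add ih ih'
  | or f g ih ih' => exact Nat.add_le_add ih ih'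

end res

section

variable {N d m M : ℕ}

lemma extend_block (hd : 1 ≤ d) (π : Equiv.Perm (Fin N)) (h : M * m ≤ N) (j : Fin M)
    (c u : Fin M → (Fin d → Fin m) → Bool) (hcu : ∀ i, i ≠ j → c i = u i)
    (x : (Fin d → Fin N) → Bool) :
    extend (cellOf π h) (fun p => c p.1 p.2) x =
      extend (fun (k : Fin d → Fin m) (l : Fin d) => π.symm (Fin.castLE h
        (finProdFinEquiv (j, k l)))) (c j) (extend (cellOf π h) (fun p => u p.1 p.2) x) := by
  have hinj := cellOf_inj hd π h
  have hinj' : Injective (fun (k : Fin d → Fin m) (l : Fin d) => π.symm (Fin.castLE h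
      (finProdFinEquiv (j, k l)))) := fun k k' he =>
    (Prod.ext_iff.1 (@hinj (j, k) (j, k') he)).2
  funext e
  by_cases he : ∃ p, cellOf π h p = e
  · obtain ⟨⟨j', k⟩, rfl⟩ := he
    rw [hinj.extend_apply]
    by_cases hj : j' = j
    · subst hj
      exact (hinj'.extend_apply (c j') (extend (cellOf π h) (fun p => u p.1 p.2) x) k).symm
    · rw [extend_apply', hinj.extend_apply]
      · exact congrFun (hcu j' hj) k
      · rintro ⟨k', hk'⟩
        exact hj (Prod.ext_iff.1 (@hinj (j, k') (j', k) hk')).1.symm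
  · rw [extend_apply' _ _ _ he, extend_apply', extend_apply' _ _ _ he]
    rintro ⟨k, hk⟩
    exact he ⟨(j, k), hk⟩

/-- the contents of the blocks of a family that is not good -/
lemma thin_blocks (hd : 1 ≤ d) (π : Equiv.Perm (Fin N)) (h : M * m ≤ N)
    {S : Finset (Finset (Fin d → Fin N))} (hS : ¬ GoodF S) {r : ℕ}
    (hr : ∀ B : Finset (Finset (Fin d → Fin m)), ¬ GoodF B → B.card ≤ r)
    (x : (Fin d → Fin N) → Bool) (A : Finset (Fin M → (Fin d → Fin m) → Bool))
    (hA : ∀ c, c ∈ A ↔ toS (extend (cellOf π h) (fun p => c p.1 p.2) x) ∈ S) : Thin 1 r A := by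
  classical
  intro B hB u
  obtain ⟨j, rfl⟩ := card_eq_one.1 hB
  set a : Fin m → Fin N := fun c => π.symm (Fin.castLE h (finProdFinEquiv (j, c))) with ha
  have hainj : Injective a := fun c c' he => (Prod.ext_iff.1 (finProdFinEquiv.injective
    (Fin.castLE_injective h (π.symm.injective he)))).2
  have h1 := thin_block hS hr a hainj (extend (cellOf π h) (fun p => u p.1 p.2) x)
  have h2 : ∑ b : (Fin d → Fin m) → Bool, inds S (extend (fun (c : Fin d → Fin m) (l : Fin d) =>
      a (c l)) b (extend (cellOf π h) (fun p => u p.1 p.2) x)) =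
      ((univ.filter fun b : (Fin d → Fin m) → Bool => toS (extend (fun (c : Fin d → Fin m)
        (l : Fin d) => a (c l)) b (extend (cellOf π h) (fun p => u p.1 p.2) x)) ∈ S).card : ℝ) := by
    unfold inds
    rw [← Finset.sum_filter, Finset.sum_const, nsmul_eq_mul, mul_one]
  rw [h2, Nat.cast_le] at h1
  refine le_trans (Finset.card_le_card_of_injOn (fun c => c j) ?_ ?_) h1
  · intro c hc
    obtain ⟨hc1, hc2⟩ := mem_filter.1 (mem_coe.1 hc)
    refine mem_coe.2 (mem_filter.2 ⟨mem_univ _, ?_⟩)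
    rw [hA, extend_block hd π h j c u (fun i hi => hc2 i (by simpa using hi))] at hc1
    exact hc1
  · intro c hc c' hc' he
    have hc2 := (mem_filter.1 (mem_coe.1 hc)).2
    have hc2' := (mem_filter.1 (mem_coe.1 hc')).2
    funext i
    by_cases hi : i = j
    · rw [hi]; exact he
    · rw [hc2 i (by simpa using hi), hc2' i (by simpa using hi)]

/-- the number of leaves of `φ` which read the cell `x` -/
def occ (φ : Fml (Fin d → Fin N)) (x : Fin d → Fin N) : ℕ := lvs (fun e => if e = x then 1 else 0) φ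

/-- **Families decided by small formulas.** -/
theorem rel_form (hd : 1 ≤ d) (hm : 1 ≤ m) {r : ℕ}
    (hr : ∀ B : Finset (Finset (Fin d → Fin m)), ¬ GoodF B → B.card ≤ r) {δ : ℝ} (hδ : 0 < δ) :
    ∃ c : ℝ, 0 < c ∧ ∀ (N : ℕ) (φ : Fml (Fin d → Fin N)) (F S : Finset (Finset (Fin d → Fin N))),
      ¬ GoodF S → (∀ A, A ∈ F ↔ φ.eval (toS.symm A) = true) →
      ((S ∩ F).card : ℝ) ≤ (r / 2 ^ (m ^ d) + δ) * F.card + 2 * 2 ^ (N ^ d) *
        Real.exp (-(c * N / (1 + ∑ x : Fin d → Fin N,
          (occ φ x : ℝ) * (1 / (N : ℝ) ^ (univ.image x).card)))) := by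
  classical
  obtain ⟨c₀, hc₀, hmain⟩ := rel_formula (α := (Fin d → Fin m) → Bool) 1 r le_rfl hδ
  have hmr : (1 : ℝ) ≤ m := by exact_mod_cast hm
  set C : ℝ := (2 * m) ^ d with hC
  have hC1 : 1 ≤ C := one_le_pow₀ (by linarith)
  set N₀ : ℕ := max m (max (2 * d) 1) with hN₀
  have hN₀1 : 1 ≤ N₀ := le_trans (le_max_right _ _) (le_max_right _ _)
  have hN₀r : (1 : ℝ) ≤ N₀ := by exact_mod_cast hN₀1
  refine ⟨min (c₀ / (4 * m * C)) (1 / (2 * N₀)), by positivity, fun N φ F S hS hF => ?_⟩
  set σ : ℝ := ∑ x : Fin d → Fin N, (occ φ x : ℝ) * (1 / (N : ℝ) ^ (univ.image x).card) with hσ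
  have hσ0 : 0 ≤ σ := Finset.sum_nonneg fun x _ => by positivity
  set c : ℝ := min (c₀ / (4 * m * C)) (1 / (2 * N₀)) with hc
  have hc0 : 0 < c := by positivity
  have hall : ((S ∩ F).card : ℝ) ≤ 2 ^ (N ^ d) := by
    have := card_le_univ (S ∩ F)
    rw [Fintype.card_finset, Fintype.card_fun, Fintype.card_fin, Fintype.card_fin] at this
    exact_mod_cast this
  have hNr : (0 : ℝ) ≤ N := Nat.cast_nonneg N
  rcases Nat.lt_or_ge N N₀ with hNN | hNN
  · -- small values of `N`
    have h1 : c * N / (1 + σ) ≤ 1 / 2 := by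
      rw [div_le_iff₀ (by linarith)]
      have h2 : c * N ≤ 1 / (2 * N₀) * N₀ :=
        mul_le_mul (min_le_right _ _) (by exact_mod_cast hNN.le) hNr (by positivity)
      have h3 : 1 / (2 * (N₀ : ℝ)) * N₀ = 1 / 2 := by field_simp
      nlinarith
    have h2 : (1 : ℝ) / 2 ≤ Real.exp (-(c * N / (1 + σ))) := by
      have := Real.add_one_le_exp (-(c * N / (1 + σ)))
      linarith
    have h3 : (0 : ℝ) ≤ (r / 2 ^ (m ^ d) + δ) * F.card := by positivity
    have h4 : (2 : ℝ) ^ (N ^ d) ≤ 2 * 2 ^ (N ^ d) * Real.exp (-(c * N / (1 + σ))) := by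
      have : (0 : ℝ) < 2 ^ (N ^ d) := by positivity
      nlinarith
    linarith
  have hmN : m ≤ N := le_trans (le_max_left _ _) hNN
  have hdN : 2 * d ≤ N := le_trans (le_trans (le_max_left _ _) (le_max_right _ _)) hNN
  have hN1 : 1 ≤ N := le_trans hN₀1 hNN
  set M : ℕ := N / m with hM
  have hMm : M * m ≤ N := Nat.div_mul_le_self N m
  have hM1 : 1 ≤ M := (Nat.le_div_iff_mul_le (by omega)).2 (by omega)
  have hMr : (1 : ℝ) ≤ M := by exact_mod_cast hM1
  have hNM : (N : ℝ) ≤ 2 * m * M := by
    have e1 : N < m * (M + 1) := Nat.lt_mul_div_succ N (by omega)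
    have e3 : (N : ℝ) < m * ((M : ℝ) + 1) := by exact_mod_cast e1
    nlinarith
  obtain ⟨π, hπ⟩ := exists_cells hd hm hdN hMm (fun x => (occ φ x : ℝ))
    (fun x => Nat.cast_nonneg _)
  rw [← hσ, ← hC] at hπ
  set ι := cellOf (d := d) π hMm with hι
  have hinj : Injective ι := cellOf_inj hd π hMm
  set S' : ℕ := ∑ p : Fin M × (Fin d → Fin m), occ φ (ι p) with hS'
  have hS'r : (S' : ℝ) ≤ C * M * σ := by
    rw [hS']
    push_cast
    exact hπ
  set W : ℝ := (2 : ℝ) ^ (M * m ^ d) with hW
  have hW0 : 0 < W := by positivity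
  have hcardα : (Fintype.card ((Fin d → Fin m) → Bool) : ℝ) = 2 ^ (m ^ d) := by
    simp
  have hcardM : ((2 : ℝ) ^ (m ^ d)) ^ M = W := by
    rw [hW, ← pow_mul, mul_comm]
  set ε : ℝ := Real.exp (-(c * N / (1 + σ))) with hε
  -- the exponent
  have hexp : Real.exp (-(c₀ * (M : ℝ) ^ 2 / (S' + M))) ≤ ε := by
    apply Real.exp_le_exp.2
    rw [neg_le_neg_iff]
    have h1 : c * N ≤ c₀ / (4 * m * C) * (2 * m * M) :=
      mul_le_mul (min_le_left _ _) hNM hNr (by positivity)
    have h2 : c₀ / (4 * m * C) * (2 * m * M) = c₀ * M / (2 * C) := by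
      field_simp
      ring
    rw [h2] at h1
    have h3 : (S' : ℝ) + M ≤ 2 * C * M * (1 + σ) := by nlinarith
    have h4 : (0 : ℝ) < S' + M := by positivity
    calc c * N / (1 + σ) ≤ c₀ * M / (2 * C) / (1 + σ) :=
          div_le_div_of_nonneg_right h1 (by linarith)
      _ = c₀ * (M : ℝ) ^ 2 / (2 * C * M * (1 + σ)) := by
          field_simp
      _ ≤ c₀ * (M : ℝ) ^ 2 / (S' + M) :=
          div_le_div_of_nonneg_left (by positivity) h4 h3
  -- one fibre
  have hfib : ∀ x : (Fin d → Fin N) → Bool,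
      ∑ b : Fin M × (Fin d → Fin m) → Bool, inds S (extend ι b x) * inds F (extend ι b x) ≤
        (r / 2 ^ (m ^ d) + δ) * ∑ b : Fin M × (Fin d → Fin m) → Bool, inds F (extend ι b x) +
          2 * W * ε := by
    intro x
    set A' : Finset (Fin M → (Fin d → Fin m) → Bool) :=
      univ.filter fun c => toS (extend ι (fun p => c p.1 p.2) x) ∈ S with hA'
    set F' : Finset (Fin M → (Fin d → Fin m) → Bool) :=
      univ.filter fun c => toS (extend ι (fun p => c p.1 p.2) x) ∈ F with hF'
    have h1 := hmain M S' (res ι x φ) (res_size ι x φ) A' F'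
      (thin_blocks hd π hMm hS hr x A' (fun c => by rw [hA', mem_filter]; simp [hι]))
      (fun c => by
        rw [hF', mem_filter, res_eval, hF, Equiv.symm_apply_apply]
        simp)
    rw [hcardα, hcardM, pow_one] at h1
    have h2 : ∀ H : (Fin M × (Fin d → Fin m) → Bool) → ℝ,
        ∑ b, H b = ∑ c : Fin M → (Fin d → Fin m) → Bool, H (fun p => c p.1 p.2) := fun H =>
      (Fintype.sum_equiv (Equiv.curry (Fin M) (Fin d → Fin m) Bool).symm
        (fun c => H (fun p => c p.1 p.2)) H (fun c => rfl)).symm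
    rw [h2, h2]
    have h3 : ∑ c : Fin M → (Fin d → Fin m) → Bool, inds S (extend ι (fun p => c p.1 p.2) x) *
        inds F (extend ι (fun p => c p.1 p.2) x) = ((A' ∩ F').card : ℝ) := by
      have h4 : A' ∩ F' = univ.filter fun c => toS (extend ι (fun p => c p.1 p.2) x) ∈ S ∧
          toS (extend ι (fun p => c p.1 p.2) x) ∈ F := by
        ext c
        simp [hA', hF']
      rw [h4, Finset.card_filter]
      push_cast
      refine Finset.sum_congr rfl fun c _ => ?_
      unfold inds
      by_cases h5 : toS (extend ι (fun p => c p.1 p.2) x) ∈ S <;>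
        by_cases h6 : toS (extend ι (fun p => c p.1 p.2) x) ∈ F <;> simp [h5, h6]
    have h4 : ∑ c : Fin M → (Fin d → Fin m) → Bool, inds F (extend ι (fun p => c p.1 p.2) x) =
        (F'.card : ℝ) := by
      rw [hF', Finset.card_filter]
      push_cast
      rfl
    rw [h3, h4]
    refine h1.trans ?_
    have := mul_le_mul_of_nonneg_left hexp (by positivity : 0 ≤ 2 * W)
    linarith
  have hsum := Finset.sum_le_sum (fun (x : (Fin d → Fin N) → Bool) (_ : x ∈ univ) => hfib x)
  rw [sum_ext (L := Bool) ι hinj (fun x => inds S x * inds F x), Finset.sum_add_distrib,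
    ← Finset.mul_sum, sum_ext (L := Bool) ι hinj (inds F), sum_inds_mul, sum_inds,
    Finset.sum_const, Finset.card_univ, nsmul_eq_mul] at hsum
  have h5 : (Fintype.card Bool : ℝ) ^ Fintype.card (Fin M × (Fin d → Fin m)) = W := by
    rw [hW]
    simp
  have h6 : (Fintype.card ((Fin d → Fin N) → Bool) : ℝ) = 2 ^ (N ^ d) := by simp
  rw [h5, h6] at hsum
  refine le_of_mul_le_mul_left (hsum.trans (le_of_eq ?_)) hW0
  ring

end

end Pool.Agent.X79.RF
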